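import Mathlib
import Pool.Agent.GracefulAsym.Step

set_option autoImplicit false

namespace Pool.Agent.Results.MP_128071_co.Asymptotic

open SimpleGraph Pool.Agent.Graceful Pool.Agent.GracefulAsym

/-- For every `ε > 0` there is `m₀` such that every tree `T` with `m ≥ m₀` edges is a subtree of a
graceful tree, and `m ≤ γ(T) ≤ (1 + ε) m`. -/
theorem result.{u} (ε : ℝ) (hε : 0 < ε) :
    ∃ m0 : ℕ, ∀ (V : Type u) [Finite V] (T : SimpleGraph V), T.IsTree →
      m0 ≤ T.edgeSet.ncard →
      (supertreeSizes T).Nonempty ∧ T.edgeSet.ncard ≤ gamma T ∧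
        (gamma T : ℝ) ≤ (1 + ε) * (T.edgeSet.ncard : ℝ) := by
  obtain ⟨m0, h⟩ := final_of_step (fun ε hε => step.{u} ε hε) ε hε
  refine ⟨m0, fun V _ T hT hm => ?_⟩
  have hcard : Nat.card T.edgeSet = T.edgeSet.ncard := rfl
  obtain ⟨N, hN, hN'⟩ := h V T hT (by rw [hcard]; exact hm)
  have hne : (supertreeSizes T).Nonempty := ⟨N, hN⟩
  refine ⟨hne, ?_, ?_⟩
  · obtain ⟨T', hT', -, hcont⟩ := Nat.sInf_mem hne
    have h1 : T.edgeSet.ncard + 1 = Nat.card V := (isTree_iff_connected_and_card.1 hT).2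
    obtain ⟨f⟩ := hcont
    have h2 := Nat.card_le_card_of_injective f f.injective
    rw [Nat.card_eq_fintype_card (α := Fin _), Fintype.card_fin] at h2
    have h3 : gamma T = sInf (supertreeSizes T) := rfl
    omega
  · have h1 : gamma T ≤ N := Nat.sInf_le hN
    have h2 : (gamma T : ℝ) ≤ N := by exact_mod_cast h1
    rw [hcard] at hN'
    exact h2.trans hN'

end Pool.Agent.Results.MP_128071_co.Asymptotic
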