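import Pool.Agent.GWT.Final
import Pool.Agent.GXX.BKXMain
import Pool.Agent.GMX.MachFinal

set_option autoImplicit false

/-!
# In every simple variety of trees all but an exponentially small proportion are graceful

Simple varieties of trees (Meir and Moon), that is Galton - Watson trees conditioned on their number `n`
of vertices. The weights are `w k ≥ 0`, with `w 0 > 0` and generating function `φ(t) = ∑ w k t ^ k`, and
`τ φ'(τ) = φ(τ)` for some `τ > 0` inside the disc of convergence. `total w n P` is the sum, over the
pairs of a tree `T` on the vertices `0, ..., n - 1` with the property `P` and a root `r`, of the product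
over the vertices `v` of `k_v ! * w (k_v)`, where `k_v = kids T r v` is the number of children of `v`;
this is `n !` times the sum over the plane rooted trees on `n` vertices with the property `P` of the
product of the `w (k_v)`, because a labelled rooted tree has `∏ k_v !` plane orders.
Labelled trees: `w k = 1 / k !`, `τ = 1`; plane trees: `w k = 1`, `τ = 1 / 2`; `d`-ary trees:
`w k = d.choose k`, `τ = 1 / (d - 1)`.
-/

namespace Pool.Agent.Results.MP_128071_co.GaltonWatson

open Pool.Agent.Graceful Pool.Agent.GWT

/-- **In every simple variety of trees all but a proportion `e ^ (-c n)` of the trees on `n` vertices are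
graceful**, with `γ(T) = |E(T)|`. -/
theorem result (w : ℕ → ℝ) (hw : ∀ k, 0 ≤ w k) (h₀ : 0 < w 0) (τ R : ℝ) (hτ : 0 < τ) (hR : τ < R)
    (hφ : Summable fun k : ℕ => w k * R ^ k)
    (hcrit : ∑' k : ℕ, (k : ℝ) * (w k * τ ^ k) = ∑' k : ℕ, w k * τ ^ k) :
    ∃ c : ℝ, 0 < c ∧ ∃ n₀ : ℕ, ∀ n : ℕ, n₀ ≤ n →
      total w n (fun T => ¬ (IsGraceful T ∧ gamma T = T.edgeSet.ncard)) ≤
        Real.exp (-(c * n)) * total w n (fun _ => True) :=
  simple_variety (Pool.Agent.GXX.thmX2_of Pool.Agent.GMX.theoremMX Pool.Agent.GXX.theoremBKX)
    w τ R hw h₀ hτ hR hφ hcrit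

end Pool.Agent.Results.MP_128071_co.GaltonWatson
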