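import Pool.Agent.GXM.Moment
import Pool.Agent.GXX.BKXMain
import Pool.Agent.GMX.MachFinal

set_option autoImplicit false

/-!
# All large trees with linearly many leaves and bounded moments of the degrees are graceful

`deg T v` = degree, `nearLeaves T` = number of vertices adjacent to a leaf, `leafNum T` = number of
leaves. Special case `S = ∅`, bounded degree: every large tree of bounded degree with linearly many
leaves is graceful.
-/

namespace Pool.Agent.Results.MP_128071_co.ManyLeaves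

open Pool.Agent.Graceful Pool.Agent.GXX Pool.Agent.GXM

/-- (1) For every `δ` there is an exponent `k` such that all large trees with at least `δ n` vertices
adjacent to a leaf and `∑ deg ^ k ≤ M n` outside a set `S` of total degree at most `η n` are
graceful, with `γ(T) = |E(T)|`. (2) The same for all large trees with at least `δ n` leaves and
`∑ exp (c deg) ≤ M n` outside `S`. -/
theorem result (δ : ℝ) (hδ : 0 < δ) :
    (∃ k : ℕ, ∀ M : ℝ, ∃ η : ℝ, 0 < η ∧ ∃ n₀ : ℕ,
      ∀ (n : ℕ) (T : SimpleGraph (Fin n)) (S : Finset (Fin n)), n₀ ≤ n → T.IsTree →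
        δ * n ≤ nearLeaves T → (∑ v ∈ S, (deg T v : ℝ)) ≤ η * n →
        (∑ v ∈ Sᶜ, (deg T v : ℝ) ^ k) ≤ M * n → IsGraceful T ∧ gamma T = T.edgeSet.ncard) ∧
    (∀ c M : ℝ, 0 < c → ∃ η : ℝ, 0 < η ∧ ∃ n₀ : ℕ,
      ∀ (n : ℕ) (T : SimpleGraph (Fin n)) (S : Finset (Fin n)), n₀ ≤ n → T.IsTree →
        δ * n ≤ leafNum T → (∑ v ∈ S, (deg T v : ℝ)) ≤ η * n →
        (∑ v ∈ Sᶜ, Real.exp (c * deg T v)) ≤ M * n →
        IsGraceful T ∧ gamma T = T.edgeSet.ncard) :=
  ⟨moment (thmX2_of Pool.Agent.GMX.theoremMX theoremBKX) δ hδ,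
    fun c M hc => moment_exp (thmX2_of Pool.Agent.GMX.theoremMX theoremBKX) δ c M hδ hc⟩

end Pool.Agent.Results.MP_128071_co.ManyLeaves
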