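import Pool.Agent.UND.Fin
import Pool.Agent.GXX.BKXMain
import Pool.Agent.GMX.MachFinal

set_option autoImplicit false

/-!
# All but an exponentially small proportion of the unlabelled trees with degrees in a given set are
graceful

`isoClass T` is the isomorphism class of `T`, the set of the graphs on the vertex set `Fin n` which are
isomorphic to `T`; `numTrees n P` is the number of the isomorphism classes of the trees `T` on `n`
vertices with the property `P`. The degree of `v` is `(T.neighborSet v).ncard`. `O` is any set of
degrees which contains `1` and a number `≥ 3`: `O = Set.univ` gives all unlabelled trees.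
-/

namespace Pool.Agent.Results.MP_128071_co.UnlabelledTrees

open Pool.Agent.Graceful Pool.Agent.UNL

/-- Let `O` be a set of natural numbers with `1 ∈ O` and an element `≥ 3`. There is `c > 0` such that
for all large `n` at most the proportion `exp (-c n)` of the isomorphism classes of trees on `n`
vertices with all degrees in `O` contain a tree `T` which is not graceful or does not satisfy
`γ(T) = |E(T)|`. -/
theorem result (O : Set ℕ) (h₁ : 1 ∈ O) (h₃ : ∃ d ∈ O, 3 ≤ d) :
    ∃ c : ℝ, 0 < c ∧ ∃ n₀ : ℕ, ∀ n : ℕ, n₀ ≤ n →
      (numTrees n (fun T => (∀ v, (T.neighborSet v).ncard ∈ O) ∧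
        ¬ (IsGraceful T ∧ gamma T = T.edgeSet.ncard)) : ℝ) ≤
        Real.exp (-(c * n)) * numTrees n (fun T => ∀ v, (T.neighborSet v).ncard ∈ O) :=
  Pool.Agent.UND.exp_rareO
    (Pool.Agent.GXX.thmX2_of Pool.Agent.GMX.theoremMX Pool.Agent.GXX.theoremBKX) O h₁ h₃

end Pool.Agent.Results.MP_128071_co.UnlabelledTrees
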